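import Mathlib
import Pool.Agent.H19.CoFin

set_option autoImplicit false

namespace Pool.Agent.Results.MP_f7162b_al.Counterexample

open Pool.Agent.H19.CoFin in
/-- A torsion-free Hopfian abelian group with an endomorphism of finite cokernel and nonzero
kernel. -/
theorem result : ∃ (G : Type) (_ : AddCommGroup G),
    (∀ (n : ℤ) (x : G), n ≠ 0 → n • x = 0 → x = 0) ∧
    (∀ θ : G →+ G, Function.Surjective θ → Function.Bijective θ) ∧
    ∃ φ : G →+ G, Finite (G ⧸ φ.range) ∧ φ.ker ≠ ⊥ := by
  refine ⟨G, inferInstance, fun n x hn h => ?_, fun θ h => ⟨hopf θ h, h⟩, phi, phi_fin, phi_ker⟩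
  have h1 : n • x.1 = 0 := congrArg Subtype.val h
  exact Subtype.ext ((smul_eq_zero.mp h1).resolve_left hn)

end Pool.Agent.Results.MP_f7162b_al.Counterexample
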